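import Pool.Agent.Run7.h172.Par.FinA
import Pool.Agent.Run7.h172.Par.Aper

/-!
# Furstenberg systems of aperiodic multiplicative functions with values `1` and `-1`: the correlations of every even order on
average over the solutions of one linear equation (MP_a4fdfa_an)

Let `f` be an aperiodic multiplicative function with values `1` and `-1`, let `k ≥ 4` be even, `c_1, …, c_k` nonzero integers of sum
zero and `b ≠ 0`. The correlations of order `k`, averaged over the `h ∈ [1, H]^k` with distinct entries on the ONE hyperplane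
`c_1 h_1 + ⋯ + c_k h_k = b`, tend to zero for almost all `H`, in all Furstenberg systems of `f`; the natural averages tend to zero
for almost all pairs of scales `(N, H)`.
-/

set_option autoImplicit false

namespace Pool.Agent.Results.MP_a4fdfa_an.EvenOrdersOneHyperplane

open MeasureTheory Filter Topology Finset

/-- the numbers `-1`, `1` -/
abbrev Val : Type := ({-1, 1} : Set ℝ)

/-- the space of two-sided sequences -/
abbrev X : Type := ℤ → Val

/-- the `n`-th power of the shift -/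
def shift (n : ℤ) (x : X) : X := fun k => x (k + n)

/-- the sequence of the values `f n`, `n ≥ 1`, extended by `1` -/
noncomputable def seq (f : ℕ → Val) : X := fun n => if 1 ≤ n then f n.toNat else ⟨1, by simp⟩

/-- `μ` is a Furstenberg system of `f`: a weak-star limit, along some sequence `N j → ∞`, of the
logarithmic averages of the point masses at the shifts of the sequence of values of `f` -/
def IsFurstenbergSystem (f : ℕ → Val) (μ : Measure X) : Prop :=
  IsProbabilityMeasure μ ∧ ∃ N : ℕ → ℕ, Tendsto N atTop atTop ∧ ∀ φ : X → ℝ, Continuous φ →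
    Tendsto (fun j => (1 / Real.log (N j : ℝ)) * ∑ n ∈ Icc 1 (N j), (1 / (n : ℝ)) * φ (shift (n : ℤ) (seq f)))
      atTop (𝓝 (∫ x, φ x ∂μ))

/-- multiplicative functions with values `1` and `-1` -/
def IsMult (f : ℕ → Val) : Prop := (f 1 : ℝ) = 1 ∧
  ∀ m n : ℕ, 1 ≤ m → 1 ≤ n → Nat.Coprime m n → (f (m * n) : ℝ) = f m * f n

/-- the distance to every Dirichlet character is infinite -/
def Aperiodic (f : ℕ → Val) : Prop := ∀ Q : ℕ, 0 < Q → ∀ χ : DirichletCharacter ℂ Q,
  ¬ Summable (fun p : ℕ => if p.Prime then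
    (1 - (((f p : ℝ) : ℂ) * (starRingEnd ℂ) (χ (p : ZMod Q))).re) / (p : ℝ) else 0)

open Classical in
/-- The tuples `h ∈ [1, H]^k` with distinct entries and `c_1 h_1 + ⋯ + c_k h_k = b`. -/
noncomputable def tuples {k : ℕ} (c : Fin k → ℤ) (b : ℤ) (H : ℕ) : Finset (Fin k → ℕ) :=
  (Fintype.piFinset fun _ : Fin k => Icc 1 H).filter
    (fun h => (∑ i, c i * (h i : ℤ) = b) ∧ Function.Injective h)

/-- The mean of `x(h_1) ⋯ x(h_k)` over these tuples `h` (zero if there is no such tuple). -/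
noncomputable def mean {k : ℕ} (c : Fin k → ℤ) (b : ℤ) (H : ℕ) (x : X) : ℝ :=
  (∑ h ∈ tuples c b H, ∏ i, (x (h i : ℤ) : ℝ)) / ((tuples c b H).card : ℝ)

/-- the values as integers -/
noncomputable def toZ (v : Val) : ℤ := if (v : ℝ) = 1 then 1 else if (v : ℝ) = -1 then -1 else 0

lemma toZ_cast (v : Val) : ((toZ v : ℤ) : ℝ) = v := by
  unfold toZ
  obtain ⟨v, hv⟩ := v
  have hv' : v = -1 ∨ v = 1 := by simpa using hv
  show (((if v = 1 then (1 : ℤ) else if v = -1 then -1 else 0 : ℤ)) : ℝ) = v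
  rcases hv' with h | h
  · rw [if_neg (by rw [h]; norm_num), if_pos h, h]
    norm_num
  · rw [if_pos h, h]
    norm_num

lemma toZ_vals (v : Val) : toZ v = 1 ∨ toZ v = -1 ∨ toZ v = 0 := by
  unfold toZ
  split_ifs <;> simp

lemma seq_pos (f : ℕ → Val) (n h : ℕ) (hn : 1 ≤ n) : shift (n : ℤ) (seq f) (h : ℤ) = f (n + h) := by
  unfold shift seq
  rw [if_pos (by omega)]
  congr 1
  omega

lemma mean_cont {k : ℕ} (c : Fin k → ℤ) (b : ℤ) (H : ℕ) : Continuous (mean c b H) := by
  unfold mean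
  refine Continuous.div_const ?_ _
  refine continuous_finsetSum _ fun h _ => continuous_finsetProd _ fun i _ => ?_
  exact continuous_subtype_val.comp (continuous_apply (h i : ℤ))

/-- **The correlations of even order on average over the solutions of one equation.** Let `k ≥ 4` be even, `c_i` nonzero
integers of sum zero, `b ≠ 0`, and let `f` be an aperiodic multiplicative function with values `1` and `-1`. For each `ε > 0` there is `Z₀`
such that for all `Z ≥ Z₀`: (1) `∑_{H ≤ Z} (1/H) ∑_{N ≤ Y} (1/N) |(1/N) ∑_{n ≤ N} mean(H, T^n x_f)| ≤ ε log Y log Z` for all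
`Y ≥ Z`; (2) `∑_{H ≤ Z} (1/H) |∫ mean(H, x) dμ(x)| ≤ ε log Z` for every Furstenberg system `μ` of `f`. -/
theorem result (k : ℕ) (hk : 4 ≤ k) (hk2 : Even k) (c : Fin k → ℤ) (hc : ∀ i, c i ≠ 0) (h0 : ∑ i, c i = 0) (b : ℤ)
    (hb : b ≠ 0) (f : ℕ → Val) (hf : IsMult f) (ha : Aperiodic f) (ε : ℝ) (hε : 0 < ε) :
    ∃ Z₀ : ℕ, ∀ Z : ℕ, Z₀ ≤ Z →
      (∀ Y : ℕ, Z ≤ Y → ∑ H ∈ Icc 1 Z, (1 / (H : ℝ)) * ∑ N ∈ Icc 1 Y, (1 / (N : ℝ)) *
        |(1 / (N : ℝ)) * ∑ n ∈ Icc 1 N, mean c b H (shift (n : ℤ) (seq f))| ≤ ε * (Real.log Y * Real.log Z)) ∧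
      ∀ μ : Measure X, IsFurstenbergSystem f μ →
        ∑ H ∈ Icc 1 Z, (1 / (H : ℝ)) * |∫ x, mean c b H x ∂μ| ≤ ε * Real.log Z := by
  classical
  obtain ⟨_, hfm⟩ := hf
  have hf0 : ∀ n : ℕ, 1 ≤ n → (f n : ℝ) ≠ 0 := by
    intro n _ h
    have h2 := (f n).2
    rw [h] at h2
    norm_num at h2
  set F : ℕ → ℤ := fun n => toZ (f n) with hF
  have hFr : ∀ n, ((F n : ℤ) : ℝ) = f n := fun n => toZ_cast (f n)
  have hFc : ∀ n, ((F n : ℤ) : ℂ) = (((f n : ℝ)) : ℂ) := by
    intro n
    rw [← hFr n]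
    push_cast
    rfl
  have hFv : ∀ n, 1 ≤ n → F n = 1 ∨ F n = -1 := by
    intro n hn
    rcases toZ_vals (f n) with h | h | h
    · left; exact h
    · right; exact h
    · exfalso
      apply hf0 n hn
      rw [← hFr n]
      have : F n = 0 := h
      rw [this]
      norm_num
  have hF0 : |F 0| ≤ 1 := by
    rcases toZ_vals (f 0) with h | h | h
    all_goals
      have h' : F 0 = _ := h
      rw [h']
      norm_num
  have hFm : ∀ m n : ℕ, 1 ≤ m → 1 ≤ n → Nat.Coprime m n → F (m * n) = F m * F n := by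
    intro m n hm hn hmn
    have h1 := hfm m n hm hn hmn
    rw [← hFr, ← hFr, ← hFr] at h1
    exact_mod_cast h1
  have hFa : Pool.Agent.Run7.h172.Par.AP.Aper F := by
    intro q χ hq hs
    apply ha q hq χ
    have h1 : Summable ({p : ℕ | p.Prime}.indicator
        (fun p : ℕ => (1 - ((F p : ℂ) * (starRingEnd ℂ) (χ (p : ZMod q))).re) / (p : ℝ))) :=
      (summable_subtype_iff_indicator (s := {p : ℕ | p.Prime})).1 hs
    have h2 : (fun p : ℕ => if p.Prime then
        (1 - (((f p : ℝ) : ℂ) * (starRingEnd ℂ) (χ (p : ZMod q))).re) / (p : ℝ) else 0) =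
        {p : ℕ | p.Prime}.indicator
        (fun p : ℕ => (1 - ((F p : ℂ) * (starRingEnd ℂ) (χ (p : ZMod q))).re) / (p : ℝ)) := by
      funext p
      by_cases hp : p.Prime
      · rw [if_pos hp, Set.indicator_of_mem (show p ∈ {p : ℕ | p.Prime} from hp), hFc]
      · rw [if_neg hp, Set.indicator_of_notMem (show p ∉ {p : ℕ | p.Prime} from hp)]
    rw [h2]
    exact h1
  have hnrt := Pool.Agent.Run7.h172.Par.nrt_aper F hF0 hFv hFm hFa
  obtain ⟨Z₀, hZ₀⟩ := Pool.Agent.Run7.h172.Par.productOneG k (by omega) c hc h0 b hb _ hnrt ε hε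
  -- the functions
  set g : Fin k → ℕ → ℂ := fun _ n => (F n : ℂ) with hg
  have hF1 : ∀ n, ‖((F n : ℤ) : ℂ)‖ ≤ 1 := by
    intro n
    rw [Complex.norm_intCast]
    rcases Nat.eq_zero_or_pos n with h | h
    · rw [h]; exact_mod_cast hF0
    · rcases hFv n h with h2 | h2 <;> rw [h2] <;> norm_num
  have hFone : F 1 = 1 := by
    have h1 := hFm 1 1 le_rfl le_rfl (Nat.coprime_one_left 1)
    rw [one_mul] at h1
    rcases hFv 1 le_rfl with h | h
    · exact h
    · rw [h] at h1; norm_num at h1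
  have hP : Pool.Agent.Run7.h172.Par.ProdOne g := by
    refine ⟨fun i => ⟨hF1, fun m n hmn => ?_⟩, fun p hp => ?_⟩
    · simp only [hg]
      rcases Nat.eq_zero_or_pos m with rfl | hm'
      · have : n = 1 := by simpa using hmn
        subst this
        simp [hFone]
      rcases Nat.eq_zero_or_pos n with rfl | hn'
      · have : m = 1 := by simpa using hmn
        subst this
        simp [hFone]
      rw [hFm m n hm' hn' hmn]
      push_cast
      rfl
    · simp only [hg]
      rw [prod_const, card_univ, Fintype.card_fin]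
      rcases hFv p hp.one_lt.le with h | h
      · rw [h]; simp
      · rw [h]
        push_cast
        exact hk2.neg_one_pow
  have key : ∀ n H : ℕ, 1 ≤ n → Pool.Agent.Run7.h172.Par.avgC g c b n H =
      ((mean c b H (shift (n : ℤ) (seq f)) : ℝ) : ℂ) := by
    intro n H hn
    unfold Pool.Agent.Run7.h172.Par.avgC mean
    have h4 : Pool.Agent.Run7.h172.Par.sol c b H = tuples c b H := rfl
    rw [h4]
    push_cast
    congr 1
    refine sum_congr rfl fun h _ => prod_congr rfl fun i _ => ?_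
    rw [seq_pos f n (h i) hn]
    exact hFc _
  refine ⟨Z₀ + 2, fun Z hZ => ?_⟩
  have hlZ : 0 ≤ Real.log (Z : ℝ) := Real.log_natCast_nonneg Z
  refine ⟨fun Y hY => ?_, fun μ hμ => ?_⟩
  · have h1 := (hZ₀ g hP ⟨⟨0, by omega⟩, rfl⟩ Z (by omega) Y hY).1
    refine le_trans (le_of_eq ?_) h1
    refine sum_congr rfl fun H _ => ?_
    congr 1
    refine sum_congr rfl fun N _ => ?_
    congr 1
    rw [sum_congr rfl fun n hn => key n H (mem_Icc.1 hn).1, ← Real.norm_eq_abs, ← Complex.norm_real]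
    congr 1
    push_cast
    rfl
  · obtain ⟨_, N, hN, hlim⟩ := hμ
    have h2 : Tendsto (fun j => ∑ H ∈ Icc 1 Z, (1 / (H : ℝ)) * |(1 / Real.log (N j : ℝ)) * ∑ n ∈ Icc 1 (N j),
        (1 / (n : ℝ)) * mean c b H (shift (n : ℤ) (seq f))|) atTop
        (𝓝 (∑ H ∈ Icc 1 Z, (1 / (H : ℝ)) * |∫ x, mean c b H x ∂μ|)) :=
      tendsto_finsetSum _ fun H _ => ((hlim _ (mean_cont c b H)).abs).const_mul _
    refine le_of_tendsto h2 ?_
    filter_upwards [hN.eventually_ge_atTop (Z + 2)] with j hj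
    have h3 := (hZ₀ g hP ⟨⟨0, by omega⟩, rfl⟩ Z (by omega) (N j) (by omega)).2
    have hlN : 0 < Real.log (N j : ℝ) := Real.log_pos (by exact_mod_cast (by omega : 1 < N j))
    have h4 : ∀ H, |(1 / Real.log (N j : ℝ)) * ∑ n ∈ Icc 1 (N j), (1 / (n : ℝ)) * mean c b H (shift (n : ℤ) (seq f))| =
        ‖∑ n ∈ Icc 1 (N j), (1 / (n : ℂ)) * Pool.Agent.Run7.h172.Par.avgC g c b n H‖ / Real.log (N j : ℝ) := by
      intro H
      have h5 : ∑ n ∈ Icc 1 (N j), (1 / (n : ℂ)) * Pool.Agent.Run7.h172.Par.avgC g c b n H =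
          ((∑ n ∈ Icc 1 (N j), (1 / (n : ℝ)) * mean c b H (shift (n : ℤ) (seq f)) : ℝ) : ℂ) := by
        push_cast
        exact sum_congr rfl fun n hn => by rw [key n H (mem_Icc.1 hn).1]
      rw [h5, Complex.norm_real, Real.norm_eq_abs, abs_mul, abs_of_pos (by positivity : 0 < 1 / Real.log (N j : ℝ))]
      ring
    simp only [h4]
    have h6 : ∑ H ∈ Icc 1 Z, (1 / (H : ℝ)) *
        (‖∑ n ∈ Icc 1 (N j), (1 / (n : ℂ)) * Pool.Agent.Run7.h172.Par.avgC g c b n H‖ / Real.log (N j : ℝ)) =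
        (∑ H ∈ Icc 1 Z, (1 / (H : ℝ)) * ‖∑ n ∈ Icc 1 (N j), (1 / (n : ℂ)) * Pool.Agent.Run7.h172.Par.avgC g c b n H‖) /
          Real.log (N j : ℝ) := by
      rw [sum_div]
      exact sum_congr rfl fun H _ => by ring
    rw [h6, div_le_iff₀ hlN]
    refine h3.trans (le_of_eq ?_)
    ring

end Pool.Agent.Results.MP_a4fdfa_an.EvenOrdersOneHyperplane
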